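import Pool.Agent.E8helper58.HM.Stm2

/-! The group `GamH` is arithmetic. -/

set_option autoImplicit false

open scoped MatrixGroups Quaternion NumberField
open Pool.Agent.E8helper58.HM Pool.Agent.E8helper58.HM.Q4 Pool.Agent.E8helper58.HM.Main

namespace Pool.Agent.E8helper89.HM

/-- The real representation of the quaternion algebra `(5, 13 / ℚ)`. -/
noncomputable def rhoFun (q : ℍ[ℚ,5,13]) : Matrix (Fin 2) (Fin 2) ℝ :=
  !![(q.re : ℝ) + q.imI * √5, q.imJ + q.imK * √5; 13 * (q.imJ - q.imK * √5), q.re - q.imI * √5]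

/-- The real representation of the quaternion algebra `(5, 13 / ℚ)`, as a ring homomorphism. -/
noncomputable def rho : ℍ[ℚ,5,13] →+* Matrix (Fin 2) (Fin 2) ℝ where
  toFun := rhoFun
  map_one' := by
    unfold rhoFun
    ext i j
    fin_cases i <;> fin_cases j <;> simp
  map_zero' := by
    unfold rhoFun
    ext i j
    fin_cases i <;> fin_cases j <;> simp
  map_add' x y := by
    unfold rhoFun
    ext i j
    fin_cases i <;> fin_cases j <;> simp <;> ring
  map_mul' x y := by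
    have h5 := sqrt5_sq
    unfold rhoFun
    rw [Matrix.mul_fin_two]
    simp only [QuaternionAlgebra.re_mul, QuaternionAlgebra.imI_mul, QuaternionAlgebra.imJ_mul,
      QuaternionAlgebra.imK_mul]
    push_cast
    ext i j
    fin_cases i <;> fin_cases j
    · simp
      linear_combination ((-x.imI : ℝ) * y.imI + 13 * x.imK * y.imK) * h5
    · simp
      linear_combination ((-x.imI : ℝ) * y.imK + x.imK * y.imI) * h5
    · simp
      linear_combination (13 * ((-x.imI : ℝ) * y.imK + x.imK * y.imI)) * h5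
    · simp
      linear_combination ((-x.imI : ℝ) * y.imI + 13 * x.imK * y.imK) * h5

theorem rho_apply (q : ℍ[ℚ,5,13]) : rho q =
    !![(q.re : ℝ) + q.imI * √5, q.imJ + q.imK * √5; 13 * (q.imJ - q.imK * √5),
      q.re - q.imI * √5] := rfl

/-- The embedding of the order. -/
def em (x : Q4 ℤ) : ℍ[ℚ,5,13] :=
  ⟨(x.a : ℚ) + x.b / 2, (x.b : ℚ) / 2, (x.c : ℚ) + x.d / 2, (x.d : ℚ) / 2⟩

theorem em_mul (x y : Q4 ℤ) : em (x * y) = em x * em y := by
  unfold em
  rw [mul_def]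
  ext
  · simp only [QuaternionAlgebra.re_mul]; push_cast; ring
  · simp only [QuaternionAlgebra.imI_mul]; push_cast; ring
  · simp only [QuaternionAlgebra.imJ_mul]; push_cast; ring
  · simp only [QuaternionAlgebra.imK_mul]; push_cast; ring

theorem em_one : em 1 = 1 := by
  unfold em
  rw [one_def]
  ext <;> simp

theorem em_conj (x : Q4 ℤ) : em (conj x) = star (em x) := by
  unfold em conj
  ext
  · simp; ring
  · simp; ring
  · simp; ring
  · simp; ring

theorem rho_em (x : Q4 ℤ) : rho (em x) = om x := by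
  rw [rho_apply]
  unfold em om ph pc
  ext i j
  fin_cases i <;> fin_cases j <;> simp <;> ring

/-- The order. -/
def ord : Subring ℍ[ℚ,5,13] where
  carrier := Set.range em
  mul_mem' := by
    rintro _ _ ⟨x, rfl⟩ ⟨y, rfl⟩
    exact ⟨x * y, em_mul x y⟩
  one_mem' := ⟨1, em_one⟩
  add_mem' := by
    rintro _ _ ⟨x, rfl⟩ ⟨y, rfl⟩
    refine ⟨⟨x.a + y.a, x.b + y.b, x.c + y.c, x.d + y.d⟩, ?_⟩
    unfold em
    ext <;> simp <;> ring
  zero_mem' := ⟨⟨0, 0, 0, 0⟩, by unfold em; ext <;> simp⟩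
  neg_mem' := by
    rintro _ ⟨x, rfl⟩
    refine ⟨⟨-x.a, -x.b, -x.c, -x.d⟩, ?_⟩
    unfold em
    ext <;> simp <;> ring

theorem mem_ord {q : ℍ[ℚ,5,13]} : q ∈ ord ↔ ∃ x : Q4 ℤ, em x = q := Iff.rfl

theorem em_mem (x : Q4 ℤ) : em x ∈ ord := ⟨x, rfl⟩

theorem int_of_ringOfIntegers (x : 𝓞 ℚ) : ∃ n : ℤ, (x : ℚ) = n := by
  have h : IsIntegral ℤ (x : ℚ) := x.2
  obtain ⟨n, hn⟩ := IsIntegrallyClosed.isIntegral_iff.mp h
  exact ⟨n, by simpa using hn.symm⟩

theorem em_int (n : ℤ) : em ⟨n, 0, 0, 0⟩ = algebraMap ℚ ℍ[ℚ,5,13] (n : ℚ) := by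
  unfold em
  ext <;> simp

theorem isOrder_ord : IsOrder ord where
  integers_mem x := by
    obtain ⟨n, hn⟩ := int_of_ringOfIntegers x
    rw [hn]
    exact ⟨⟨n, 0, 0, 0⟩, em_int n⟩
  fg := by
    rw [AddSubgroup.fg_iff]
    refine ⟨{em ⟨1, 0, 0, 0⟩, em ⟨0, 1, 0, 0⟩, em ⟨0, 0, 1, 0⟩, em ⟨0, 0, 0, 1⟩}, ?_,
      Set.toFinite _⟩
    apply le_antisymm
    · rw [AddSubgroup.closure_le]
      intro q hq
      simp only [Set.mem_insert_iff, Set.mem_singleton_iff] at hq
      rcases hq with rfl | rfl | rfl | rfl <;> exact em_mem _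
    · rintro _ ⟨x, rfl⟩
      have h : em x = x.a • em ⟨1, 0, 0, 0⟩ + x.b • em ⟨0, 1, 0, 0⟩ + x.c • em ⟨0, 0, 1, 0⟩ +
          x.d • em ⟨0, 0, 0, 1⟩ := by
        unfold em
        ext <;> simp <;> ring
      rw [h]
      refine AddSubgroup.add_mem _ (AddSubgroup.add_mem _ (AddSubgroup.add_mem _ ?_ ?_) ?_) ?_ <;>
        refine AddSubgroup.zsmul_mem _ (AddSubgroup.subset_closure ?_) _ <;> simp
  span_eq_top := by
    rw [Submodule.eq_top_iff']
    intro q
    have h : q = (q.re - q.imI) • em ⟨1, 0, 0, 0⟩ + (2 * q.imI) • em ⟨0, 1, 0, 0⟩ +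
        (q.imJ - q.imK) • em ⟨0, 0, 1, 0⟩ + (2 * q.imK) • em ⟨0, 0, 0, 1⟩ := by
      unfold em
      ext <;> simp <;> ring
    rw [h]
    refine Submodule.add_mem _ (Submodule.add_mem _ (Submodule.add_mem _ ?_ ?_) ?_) ?_ <;>
      exact Submodule.smul_mem _ _ (Submodule.subset_span (em_mem _))

theorem rho_algebraMap (x : ℚ) : rho (algebraMap ℚ ℍ[ℚ,5,13] x) =
    algebraMap ℝ (Matrix (Fin 2) (Fin 2) ℝ) (Rat.castHom ℝ x) := by
  rw [rho_apply]
  ext i j
  fin_cases i <;> fin_cases j <;> simp [Algebra.algebraMap_eq_smul_one]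

theorem mem_units {g : SL(2, ℝ)} :
    g ∈ normOneUnits rho ord ↔ ∃ x : Q4 ℤ, g.1 = om x ∧ nf x = 1 := by
  constructor
  · rintro ⟨q, ⟨x, rfl⟩, -, -, -, h⟩
    rw [rho_em] at h
    refine ⟨x, h, ?_⟩
    have h1 := g.2
    rw [h, det_om] at h1
    exact_mod_cast h1
  · rintro ⟨x, h, hx⟩
    refine ⟨em x, em_mem x, by rw [← em_conj]; exact em_mem _, ?_, ?_, by rw [rho_em, h]⟩
    · rw [← em_conj, ← em_mul, mul_conj, hx, one_smul', em_one]
    · rw [← em_conj, ← em_mul, conj_mul_self, hx, one_smul', em_one]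

theorem GamH_le_units : GamH ≤ normOneUnits rho ord := by
  rintro g ⟨x, hx, hb, -⟩
  exact mem_units.mpr ⟨x, hx, hb.1⟩

/-- Congruent elements are in the same coset. -/
theorem cong_coset {g g' : SL(2, ℝ)} {x y : Q4 ℤ} (hg : g.1 = om x) (hg' : g'.1 = om y)
    (hy : nf y = 1) (ha : (6545 : ℤ) ∣ x.a - y.a) (hb : (6545 : ℤ) ∣ x.b - y.b)
    (hc : (6545 : ℤ) ∣ x.c - y.c) (hd : (6545 : ℤ) ∣ x.d - y.d) : g⁻¹ * g' ∈ GamH := by
  apply cong_mem
  obtain ⟨a, ha⟩ := ha
  obtain ⟨b, hb⟩ := hb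
  obtain ⟨c, hc⟩ := hc
  obtain ⟨d, hd⟩ := hd
  refine ⟨conj x * y, ?_, ?_, ?_, ?_, ?_⟩
  · rw [Matrix.SpecialLinearGroup.coe_mul, Matrix.SpecialLinearGroup.coe_inv, hg, hg', adj_om,
      om_mul]
  all_goals
    obtain rfl : x = ⟨y.a + 6545 * a, y.b + 6545 * b, y.c + 6545 * c, y.d + 6545 * d⟩ := by
      ext <;> simp <;> linarith
    unfold nf at hy
    simp only [conj, mul_def]
  · refine ⟨(a + b) * y.a - b * y.b + 13 * (-c * y.c - c * y.d + d * y.d), ?_⟩
    linear_combination hy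
  · refine ⟨(a + b) * y.b - b * y.a - b * y.b + 13 * (-d * y.c + c * y.d), ?_⟩
    ring
  · refine ⟨(a + b) * y.c - b * y.d - c * y.a - c * y.b + d * y.b, ?_⟩
    ring
  · refine ⟨(a + b) * y.d - b * y.c - b * y.d - d * y.a + c * y.b, ?_⟩
    ring

theorem relIndex_ne : GamH.relIndex (normOneUnits rho ord) ≠ 0 := by
  classical
  set U := normOneUnits rho ord with hU
  have hx : ∀ g : U, ∃ x : Q4 ℤ, g.1.1 = om x ∧ nf x = 1 := fun g => mem_units.mp g.2
  choose X hX hX1 using hx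
  unfold Subgroup.relIndex
  have : Finite (U ⧸ GamH.subgroupOf U) := by
    let f : (U ⧸ GamH.subgroupOf U) → ZMod 6545 × ZMod 6545 × ZMod 6545 × ZMod 6545 := fun c =>
      (((X c.out).a : ZMod 6545), ((X c.out).b : ZMod 6545), ((X c.out).c : ZMod 6545),
        ((X c.out).d : ZMod 6545))
    apply Finite.of_injective f
    intro c c' h
    simp only [f, Prod.mk.injEq] at h
    obtain ⟨h1, h2, h3, h4⟩ := h
    have key : ∀ u v : ℤ, (u : ZMod 6545) = (v : ZMod 6545) → (6545 : ℤ) ∣ u - v := by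
      intro u v huv
      have := (ZMod.intCast_eq_intCast_iff_dvd_sub v u 6545).mp huv.symm
      exact_mod_cast this
    have h5 := cong_coset (hX c.out) (hX c'.out) (hX1 c'.out) (key _ _ h1) (key _ _ h2)
      (key _ _ h3) (key _ _ h4)
    rw [← QuotientGroup.out_eq' c, ← QuotientGroup.out_eq' c', QuotientGroup.eq,
      Subgroup.mem_subgroupOf]
    exact h5
  exact Subgroup.index_ne_zero_of_finite

theorem center_le : (QuotientGroup.mk' (Subgroup.center SL(2, ℝ))).ker ≤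
    normOneUnits rho ord := by
  rw [QuotientGroup.ker_mk']
  intro g hg
  obtain ⟨r, hr, h⟩ := Matrix.SpecialLinearGroup.mem_center_iff.mp hg
  rw [Fintype.card_fin] at hr
  rw [mem_units]
  have hr' : (r - 1) * (r + 1) = 0 := by linear_combination hr
  have hr2 : r = 1 ∨ r = -1 := by
    rcases mul_eq_zero.mp hr' with h1 | h1
    · exact Or.inl (by linarith)
    · exact Or.inr (by linarith)
  rcases hr2 with h1 | h1
  · refine ⟨1, ?_, nf_one⟩
    rw [← h, h1, om_one, map_one]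
  · refine ⟨⟨-1, 0, 0, 0⟩, ?_, by decide⟩
    rw [← h, h1]
    unfold om
    ext i j
    fin_cases i <;> fin_cases j <;> simp

theorem s_ARITH : S_ARITH := by
  refine ⟨ℚ, inferInstance, inferInstance, 5, 13, Rat.castHom ℝ, rho, ord, inferInstance,
    by norm_num, by norm_num, rho_algebraMap, ?_, isOrder_ord, ?_, ?_⟩
  · intro τ hτ
    exact absurd (Subsingleton.elim _ _) hτ
  · unfold imagePSL
    rw [Subgroup.relIndex_map_map, sup_eq_left.mpr center_le]
    intro h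
    have h1 := Subgroup.relIndex_dvd_of_le_left (L := normOneUnits rho ord)
      (le_sup_left : GamH ≤ GamH ⊔ (QuotientGroup.mk' (Subgroup.center SL(2, ℝ))).ker)
    rw [h, zero_dvd_iff] at h1
    exact relIndex_ne h1
  · have h : (imagePSL (normOneUnits rho ord)).relIndex (imagePSL GamH) = 1 :=
      Subgroup.relIndex_eq_one.mpr (Subgroup.map_mono GamH_le_units)
    rw [h]
    exact one_ne_zero

end Pool.Agent.E8helper89.HM
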